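import Mathlib

/-!
# Weak P_{kappa^+}-points below products of ultrafilters on kappa

For every cardinal `κ` (in particular every infinite cardinal `κ < 2^ω`), every weak
`P_{κ⁺}`-point `u`, and ultrafilters `v 0, …, v n` on sets `X 0, …, X n` such that
`X 0, …, X (n - 1)` have cardinality at most `κ`: if `u` is Rudin-Keisler below
`v 0 ⊗ ⋯ ⊗ v n` then `u` is Rudin-Keisler below some `v k`.
-/

open Cardinal Set

namespace Pool.Agent.Results.MP_96acc4_lc.WeakPPointsBelowProducts

universe u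

/-- The Rudin-Keisler order: `u ≤_RK v` iff `u = f~(v)` for some `f : X → Y`, where
`A ∈ f~(v) ↔ f ⁻¹' A ∈ v` (this is `Ultrafilter.map`). -/
def RKLe {X Y : Type*} (u : Ultrafilter Y) (v : Ultrafilter X) : Prop :=
  ∃ f : X → Y, v.map f = u

/-- The product `v ⊗ w` of ultrafilters: `A ∈ v ⊗ w` iff `{x | {y | (x, y) ∈ A} ∈ w} ∈ v`. -/
def tensor {X Y : Type*} (v : Ultrafilter X) (w : Ultrafilter Y) : Ultrafilter (X × Y) :=
  v.bind fun x => w.map fun y => (x, y)

/-- The defining property of the product. -/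
theorem mem_tensor {X Y : Type*} (v : Ultrafilter X) (w : Ultrafilter Y) (A : Set (X × Y)) :
    A ∈ tensor v w ↔ {x | {y | (x, y) ∈ A} ∈ w} ∈ v :=
  Iff.rfl

/-- The iterated product `v 0 ⊗ (v 1 ⊗ (⋯ ⊗ v n))` of ultrafilters `v i` on sets `X i`,
`i = 0, …, n`, as an ultrafilter on the product of the sets `X i`. -/
def iterTensor : (n : ℕ) → (X : Fin (n + 1) → Type) → ((i : Fin (n + 1)) → Ultrafilter (X i)) →
    Ultrafilter ((i : Fin (n + 1)) → X i)
  | 0, X, v => (v 0).map fun x => (Fin.cons x (fun i : Fin 0 => i.elim0) : (i : Fin 1) → X i)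
  | n + 1, X, v =>
    (tensor (v 0) (iterTensor n (fun i => X i.succ) (fun i => v i.succ))).map
      fun p => (Fin.cons p.1 p.2 : (i : Fin (n + 2)) → X i)

/-- `u ∈ ω^*` is a weak `P_{κ⁺}`-point: it is not principal, and it is not in the closure of any
set `F ⊆ ω^* ∖ {u}` with `|F| ≤ κ`. -/
def IsWeakP (κ : Cardinal.{0}) (u : Ultrafilter ℕ) : Prop :=
  (∀ m : ℕ, u ≠ pure m) ∧
    ∀ F : Set (Ultrafilter ℕ), (∀ w ∈ F, (∀ m : ℕ, w ≠ pure m) ∧ w ≠ u) → #F ≤ κ →
      u ∉ closure F

/-- The two-factor case, with index sets of possibly different sizes. -/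
theorem two_factor {X : Type} {Y : Type*} (κ : Cardinal.{0}) (hX : #X ≤ κ)
    (u : Ultrafilter ℕ) (hu : IsWeakP κ u) (v : Ultrafilter X) (w : Ultrafilter Y)
    (h : RKLe u (tensor v w)) : RKLe u v ∨ RKLe u w := by
  obtain ⟨f, hf⟩ := h
  -- the ultrafilters `U x = f(x, ·)~(w)`
  set U : X → Ultrafilter ℕ := fun x => w.map fun y => f (x, y) with hU
  have key : ∀ A : Set ℕ, A ∈ u ↔ {x | A ∈ U x} ∈ v := by
    intro A
    rw [← hf]
    exact Iff.rfl
  by_cases h1 : ∃ x, U x = u
  · obtain ⟨x, hx⟩ := h1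
    exact Or.inr ⟨_, hx⟩
  · left
    push Not at h1
    rcases v.em (fun x => ∃ m : ℕ, U x = pure m) with h2 | h2
    · classical
      refine ⟨fun x => if hx : ∃ m : ℕ, U x = pure m then hx.choose else 0, ?_⟩
      ext A
      rw [key, Ultrafilter.mem_map]
      constructor
      · intro h3
        filter_upwards [h2, h3] with x hx hx3
        simp only [mem_preimage, dif_pos hx] at hx3
        have := hx.choose_spec
        rw [this]
        exact hx3
      · intro h3
        filter_upwards [h2, h3] with x hx hx3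
        simp only [mem_preimage, dif_pos hx]
        have := hx.choose_spec
        rw [this] at hx3
        exact hx3
    · exfalso
      refine hu.2 {z | ∃ x, U x = z ∧ ¬ ∃ m : ℕ, U x = pure m} ?_ ?_ ?_
      · rintro z ⟨x, rfl, hx⟩
        push Not at hx
        exact ⟨hx, h1 x⟩
      · refine le_trans ?_ hX
        have hsub : {z | ∃ x, U x = z ∧ ¬ ∃ m : ℕ, U x = pure m} ⊆ range U := by
          rintro z ⟨x, rfl, _⟩
          exact ⟨x, rfl⟩
        exact (mk_le_mk_of_subset hsub).trans mk_range_le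
      · rw [mem_closure_iff_nhds_basis ((ultrafilterBasis_is_basis (α := ℕ)).nhds_hasBasis)]
        rintro S ⟨⟨A, rfl⟩, hA⟩
        have hA' : {x | A ∈ U x} ∈ v := (key A).1 hA
        obtain ⟨x, hx⟩ := v.nonempty_of_mem (Filter.inter_mem hA' h2)
        exact ⟨U x, ⟨x, rfl, hx.2⟩, hx.1⟩

/-- **Theorem (positive answer to Q1).** Q1 is the case where `κ` is infinite and less than `2^ω`
and every `X i` is equal to `κ`; here the sets `X 0, …, X (n - 1)` only need at most `κ` elements,
and the last set `X n` is arbitrary. -/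
theorem result (κ : Cardinal.{0}) (u : Ultrafilter ℕ) (hu : IsWeakP κ u)
    (n : ℕ) (X : Fin (n + 1) → Type) (hX : ∀ i : Fin (n + 1), i ≠ Fin.last n → #(X i) ≤ κ)
    (v : (i : Fin (n + 1)) → Ultrafilter (X i))
    (h : RKLe u (iterTensor n X v)) : ∃ k : Fin (n + 1), RKLe u (v k) := by
  induction n with
  | zero =>
    obtain ⟨f, hf⟩ := h
    refine ⟨0, fun x => f (Fin.cons x (fun i : Fin 0 => i.elim0)), ?_⟩
    rw [← hf]
    rfl
  | succ n ih =>
    obtain ⟨f, hf⟩ := h
    have h' : RKLe u (tensor (v 0) (iterTensor n (fun i => X i.succ) (fun i => v i.succ))) := by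
      refine ⟨fun p => f (Fin.cons p.1 p.2 : (i : Fin (n + 2)) → X i), ?_⟩
      rw [← hf]
      rfl
    have h0 : #(X 0) ≤ κ := hX 0 (by
      intro h0
      exact absurd h0 (ne_of_lt (Fin.last_pos)))
    rcases two_factor κ h0 u hu _ _ h' with h2 | h2
    · exact ⟨0, h2⟩
    · obtain ⟨k, hk⟩ := ih (fun i => X i.succ) (fun i hi => hX i.succ (by
        intro h3
        apply hi
        rw [← Fin.succ_last] at h3
        exact Fin.succ_injective _ h3)) (fun i => v i.succ) h2
      exact ⟨k.succ, hk⟩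

end Pool.Agent.Results.MP_96acc4_lc.WeakPPointsBelowProducts
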